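import Pool.Agent.H416.CircOr
import Pool.Agent.H416.GD

set_option autoImplicit false

/-!
# The Bass trace conjecture for groups of homeomorphisms of the circle

`CircleAct h`, `h` an element of a group `H`: the group `H` has a homomorphism `φ` to the group of all
homeomorphisms of the circle such that `φ h` has infinite order and such that for every `x` in `H` the
set of the fixed points of `φ x` has only finitely many boundary points. The last condition holds for
the real analytic homeomorphisms, the piecewise linear, piecewise projective and piecewise analytic
homeomorphisms (with finitely many pieces). Nothing is assumed about the derivatives, the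
orientation, or the existence of fixed points or of an invariant measure; the groups may contain
Baumslag-Solitar groups, free groups and divisible elements.

We prove that such an element `h` has infinite order in the abelianisation of its centraliser. If the
rotation number of `h` is irrational, the semiconjugacy with a rotation shows that the translation
number is additive on the centraliser. Otherwise a power of `h` acts without fixed points on an
interval which is preserved by a subgroup of finite index of the centraliser; the relation `f ≤ f'`
near the end of the interval is a total preorder, since the fixed point sets have finitely many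
boundary points, it is invariant under both multiplications, and the powers of `h` are cofinal;
Hoelder's theorem gives a homomorphism to the real numbers, which is extended by the transfer.
-/

namespace Pool.Agent.Results.MP_7903c7_al.CircleActions

open Pool.Agent.H26R2.Bass (Good)

universe u v

/-- `H` acts on the circle by homeomorphisms, the fixed point sets of all elements have finitely many
boundary points, and `h` acts by a homeomorphism of infinite order. -/
def CircleAct {H : Type v} [Group H] (h : H) : Prop :=
  ∃ φ : H →* (UnitAddCircle ≃ₜ UnitAddCircle),
    (∀ x, (frontier {y | φ x y = y}).Finite) ∧ ∀ n : ℕ, 0 < n → φ (h ^ n) ≠ 1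

/-- The Bass trace conjecture for the domain `R` and the group `G`. -/
def BassFor (R : Type u) [CommRing R] [IsDomain R] (G : Type v) [Group G] : Prop :=
  ∀ (n : ℕ) (A : Matrix (Fin n) (Fin n) (MonoidAlgebra R G)), IsIdempotentElem A →
    ∀ g : G, ¬ IsUnit ((orderOf g : ℕ) : R) →
      ∑ i : Fin n, ∑ᶠ (h : G) (_ : IsConj h g), (A i i).coeff h = 0

/-- Let `R` be a commutative domain of characteristic zero and `G` a group.

(1) Let `A` be an idempotent matrix over `R[G]` and `g` an element of `G` such that `CircleAct` holds
for `g` in every finitely generated subgroup which contains `g`. Then `τ_A(g) = 0`.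

(2) The Bass trace conjecture holds for `R` and `G` if for every finitely generated subgroup `H` of
`G` and every element `h` of infinite order of `H` we have `CircleAct h`, or `h` is good over `R` in
the sense of the starting results.

(3) The Bass trace conjecture holds for `R` and all groups of homeomorphisms of the circle all of
whose elements have a fixed point set with finitely many boundary points. -/
theorem result (R : Type u) [CommRing R] [IsDomain R] [CharZero R] :
    (∀ (G : Type v) [Group G] (n : ℕ) (A : Matrix (Fin n) (Fin n) (MonoidAlgebra R G)),
      IsIdempotentElem A → ∀ g : G,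
        (∀ (H : Subgroup G), H.FG → ∀ hg : g ∈ H, CircleAct (⟨g, hg⟩ : H)) →
        ∑ i : Fin n, ∑ᶠ (h : G) (_ : IsConj h g), (A i i).coeff h = 0) ∧
    (∀ (G : Type v) [Group G],
      (∀ H : Subgroup G, H.FG → ∀ h : H, (∀ n : ℕ, 0 < n → h ^ n ≠ 1) →
        CircleAct h ∨ Good R h) → BassFor R G) ∧
    (∀ G : Subgroup (UnitAddCircle ≃ₜ UnitAddCircle),
      (∀ g ∈ G, (frontier {y | g y = y}).Finite) → BassFor R G) := by
  have key : ∀ (H : Type v) [Group H] (h : H), CircleAct h → Pool.Agent.H416.RC h := by
    intro H _ h ⟨φ, h1, h2⟩
    exact Pool.Agent.H416.Circ.rc_of_circle φ h1 h h2
  refine ⟨?_, ?_, ?_⟩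
  · intro G _ n A hA g hg
    refine Pool.Agent.H416.TR.bass (fun n x hn hx => ?_) (fun H hH hgH => key H _ (hg H hH hgH)) A hA
    rw [nsmul_eq_mul, mul_eq_zero] at hx
    exact hx.resolve_left (Nat.cast_ne_zero.2 hn.ne')
  · intro G _ hG n A hA g hg
    refine Pool.Agent.H26R2.Bass.bass_of_local (fun H hH h hh => ?_) A hA g hg
    rcases hG H hH h (fun n hn h1 => hh ⟨n, hn, h1⟩) with h1 | h1
    · exact (key H h h1).good R
    · exact h1
  · intro G hG n A hA g hg
    refine Pool.Agent.H26R2.Bass.bass_of_local (fun H hH h hh => ?_) A hA g hg
    refine (Pool.Agent.H416.Circ.rc_of_circle (G.subtype.comp H.subtype) (fun x => hG _ x.1.2) h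
      fun n hn h1 => hh ⟨n, hn, ?_⟩).good R
    apply Subtype.ext
    apply Subtype.ext
    exact h1

end Pool.Agent.Results.MP_7903c7_al.CircleActions
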